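import Pool.Agent.Work.MP_72041b_co.Bd.B01
import Pool.Agent.Work.MP_72041b_co.Bd.B03

/-!
# MP_72041b_co: assembly of the result in all dimensions
-/

namespace Pool.Agent.Potatoes

theorem claimBins_all : ClaimBins := claimBins (claimBin1 claimStack)

theorem claimBox_all : ClaimBox := claimBox claimFlag claimFlagVol

theorem claimLow_all : ClaimLow := claimLow claimStd claimDisc claimThin claimSlab

theorem claimSmall_all : ClaimSmall :=
  claimSmall claimStd claimBox_all claimHelmert (claimPlace (claimCover (claimZero claimRot)))
    (claimArrange claimStack claimBins_all)

theorem mainA_all : MainA :=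
  mainA claimScale claimStd claimSmall_all (claimLarge claimStd claimBox_all claimBins_all)
    claimLow_all (claimVol claimStd)

end Pool.Agent.Potatoes
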