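import Pool.Agent.Work.MP_72041b_co.AllA
import Pool.Agent.Work.MP_72041b_co.Bd.B02

/-!
# MP_72041b_co: assembly of the result in the plane
-/

namespace Pool.Agent.Potatoes

theorem mainB_all : MainB :=
  mainB claimScale claimStd
    (claimUp2 claimStd claimBox2 (claimArrange2 claimStack claimBins_all))
    (claimLow2 claimStd claimLow_all claimThin claimThin2 claimSection claimCross)

end Pool.Agent.Potatoes
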