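import Mathlib

/-!
# MP_72041b_co: the sack of potatoes, definitions

`f k a b` is the infimum of all `c > 0` such that every countable family of convex bodies in
`ℝ^k`, each of diameter at most `a` and with total volume at most `b`, can be placed in a cube of
diameter `c` by isometries with pairwise disjoint images.
-/

namespace Pool.Agent.Potatoes

open MeasureTheory Set Metric

/-- Euclidean `k`-space. -/
abbrev E (k : ℕ) := EuclideanSpace ℝ (Fin k)

/-- A convex body: a compact convex set with nonempty interior. -/
structure IsBody {k : ℕ} (K : Set (E k)) : Prop where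
  compact : IsCompact K
  convex : Convex ℝ K
  inner : (interior K).Nonempty

/-- The cube with side `s`, centred at the origin, with edges parallel to the axes. -/
def stdCube (k : ℕ) (s : ℝ) : Set (E k) := {x | ∀ i, |x i| ≤ s / 2}

/-- `Q` is a cube of diameter `c`, that is, an isometric copy of the standard cube with side
`c / √k`. -/
def IsCube {k : ℕ} (c : ℝ) (Q : Set (E k)) : Prop :=
  ∃ g : E k ≃ᵢ E k, Q = g '' stdCube k (c / √k)

/-- The family `K` is placed in `Q`: there are isometries `g i` with all `g i '' K i` contained in
`Q` and pairwise disjoint. -/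
def PlacedIn {k : ℕ} {ι : Type} (K : ι → Set (E k)) (Q : Set (E k)) : Prop :=
  ∃ g : ι → (E k ≃ᵢ E k), (∀ i, g i '' K i ⊆ Q) ∧
    ∀ i j, i ≠ j → Disjoint (g i '' K i) (g j '' K j)

/-- Every countable (finite or infinite) family of convex bodies in `ℝ^k`, each of diameter at
most `a` and with sum of volumes at most `b`, can be placed in some cube of diameter `c`. -/
def Works (k : ℕ) (a b c : ℝ) : Prop :=
  ∀ (ι : Type) [Countable ι] (K : ι → Set (E k)), (∀ i, IsBody (K i)) →
    (∀ i, diam (K i) ≤ a) → ∑' i, volume (K i) ≤ ENNReal.ofReal b →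
    ∃ Q : Set (E k), IsCube c Q ∧ PlacedIn K Q

/-- The function of the problem. -/
noncomputable def f (k : ℕ) (a b : ℝ) : ℝ := sInf {c : ℝ | 0 < c ∧ Works k a b c}

end Pool.Agent.Potatoes
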